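import Mathlib

set_option autoImplicit false
set_option linter.unusedSectionVars false
open MeasureTheory Filter Topology

namespace Pool.Agent.V8H53.OverRec

variable {X : Type*} [MeasurableSpace X] {μ : Measure X} [IsProbabilityMeasure μ] {T : X → X}

/-- Mixing, written with real-valued measures. -/
def Mix (μ : Measure X) (T : X → X) : Prop :=
  ∀ A B : Set X, MeasurableSet A → MeasurableSet B →
    Tendsto (fun n : ℕ => μ.real (A ∩ T^[n] ⁻¹' B)) atTop (𝓝 (μ.real A * μ.real B))

lemma int_comp (hT : MeasurePreserving T μ μ) {f : X → ℝ} (hf : Measurable f) (n : ℕ) :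
    ∫ x, f (T^[n] x) ∂μ = ∫ x, f x ∂μ := by
  have h := integral_map (μ := μ) (φ := T^[n]) (hT.iterate n).measurable.aemeasurable
    (f := f) hf.aestronglyMeasurable
  rw [(hT.iterate n).map_eq] at h
  exact h.symm

lemma integrable_of_bdd {f : X → ℝ} (hf : Measurable f) {C : ℝ} (hC : ∀ x, |f x| ≤ C) :
    Integrable f μ := by
  refine Integrable.of_bound hf.aestronglyMeasurable C (Eventually.of_forall ?_)
  intro x; simpa [Real.norm_eq_abs] using hC x

lemma real_preimage (hT : MeasurePreserving T μ μ) {B : Set X} (hB : MeasurableSet B) (n : ℕ) :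
    μ.real (T^[n] ⁻¹' B) = μ.real B := by
  have := (hT.iterate n).measure_preimage hB.nullMeasurableSet
  simp [Measure.real, this]

/-- small sets exist -/
lemma small_set (hmix : Mix μ T) (hT : MeasurePreserving T μ μ) {A : Set X}
    (hA : MeasurableSet A) (h0 : 0 < μ.real A) (h1 : μ.real A < 1) (k : ℕ) :
    ∃ B : Set X, MeasurableSet B ∧ 0 < μ.real B ∧ μ.real B ≤ ((1 + μ.real A) / 2) ^ k := by
  induction k with
  | zero => exact ⟨A, hA, h0, by simpa using h1.le⟩
  | succ k ih =>
    obtain ⟨B, hB, hB0, hBk⟩ := ih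
    have hlim := hmix B A hB hA
    have hpos : 0 < μ.real B * μ.real A := mul_pos hB0 h0
    have hlt : μ.real B * μ.real A < μ.real B * ((1 + μ.real A) / 2) := by
      apply mul_lt_mul_of_pos_left _ hB0
      linarith
    have e1 := hlim.eventually (lt_mem_nhds hpos)
    have e2 := hlim.eventually (gt_mem_nhds hlt)
    obtain ⟨n, hn1, hn2⟩ := (e1.and e2).exists
    refine ⟨B ∩ T^[n] ⁻¹' A, hB.inter ((hT.iterate n).measurable hA), hn1, ?_⟩
    rw [pow_succ]
    refine hn2.le.trans ?_
    exact mul_le_mul_of_nonneg_right hBk (by linarith)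

/-- union of the first `k` preimages -/
def hit (T : X → X) (B : Set X) (k : ℕ) : Set X := ⋃ j ∈ Finset.range k, T^[j] ⁻¹' B

lemma hit_meas (hT : MeasurePreserving T μ μ) {B : Set X} (hB : MeasurableSet B) (k : ℕ) :
    MeasurableSet (hit T B k) := by
  unfold hit
  exact Finset.measurableSet_biUnion _ (fun j _ => (hT.iterate j).measurable hB)

lemma hit_succ (T : X → X) (B : Set X) (k : ℕ) :
    hit T B (k + 1) = hit T B k ∪ T^[k] ⁻¹' B := by
  unfold hit
  rw [Finset.range_add_one]
  simp [Finset.set_biUnion_insert, Set.union_comm]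

lemma mem_hit {B : Set X} {k : ℕ} {x : X} : x ∈ hit T B k ↔ ∃ j < k, T^[j] x ∈ B := by
  unfold hit
  simp

lemma mem_hit_T {B : Set X} {k : ℕ} {x : X} :
    T x ∈ hit T B k ↔ ∃ j < k, T^[j+1] x ∈ B := by
  rw [mem_hit]
  simp [Function.iterate_succ_apply]

/-- the hitting sets exhaust the space -/
lemma hit_exhaust (hmix : Mix μ T) (hT : MeasurePreserving T μ μ) {B : Set X}
    (hB : MeasurableSet B) (hB0 : 0 < μ.real B) :
    Tendsto (fun k => μ.real (hit T B k)) atTop (𝓝 1) := by
  set D : Set X := ⋃ k, hit T B k with hD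
  have hDm : MeasurableSet D := MeasurableSet.iUnion (fun k => hit_meas hT hB k)
  have hmono : Monotone (hit T B) := by
    intro a b hab x hx
    rw [mem_hit] at hx ⊢
    obtain ⟨j, hj, hx⟩ := hx
    exact ⟨j, by omega, hx⟩
  have hlim : Tendsto (fun k => μ (hit T B k)) atTop (𝓝 (μ D)) :=
    tendsto_measure_iUnion_atTop hmono
  have hlim' : Tendsto (fun k => μ.real (hit T B k)) atTop (𝓝 (μ.real D)) := by
    have := (ENNReal.tendsto_toReal (measure_ne_top μ D)).comp hlim
    exact this
  -- preimages of D are contained in D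
  have hsub : ∀ n, T^[n] ⁻¹' D ⊆ D := by
    intro n x hx
    rw [Set.mem_preimage, hD, Set.mem_iUnion] at hx
    obtain ⟨k, hk⟩ := hx
    rw [mem_hit] at hk
    obtain ⟨j, _, hj⟩ := hk
    rw [hD, Set.mem_iUnion]
    refine ⟨j + n + 1, ?_⟩
    rw [mem_hit]
    refine ⟨j + n, by omega, ?_⟩
    rw [Function.iterate_add_apply]
    exact hj
  have hBD : ∀ n, μ.real (Dᶜ ∩ T^[n] ⁻¹' B) = 0 := by
    intro n
    have : Dᶜ ∩ T^[n] ⁻¹' B = ∅ := by
      ext x
      simp only [Set.mem_inter_iff, Set.mem_compl_iff, Set.mem_preimage, Set.mem_empty_iff_false,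
        iff_false, not_and]
      intro hx hxB
      apply hx
      rw [hD, Set.mem_iUnion]
      exact ⟨n + 1, mem_hit.2 ⟨n, by omega, hxB⟩⟩
    simp [this]
  have h0 := hmix Dᶜ B hDm.compl hB
  have h1 : Tendsto (fun n : ℕ => μ.real (Dᶜ ∩ T^[n] ⁻¹' B)) atTop (𝓝 0) := by
    simp only [hBD]; exact tendsto_const_nhds
  have h2 := tendsto_nhds_unique h0 h1
  have h3 : μ.real Dᶜ = 0 := by
    rcases mul_eq_zero.1 h2 with h | h
    · exact h
    · exact absurd h hB0.ne'
  have h4 : μ.real D = 1 := by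
    have := probReal_compl_eq_one_sub (μ := μ) hDm
    linarith
  rw [h4] at hlim'
  exact hlim'

lemma hit_le_succ (hT : MeasurePreserving T μ μ) {B : Set X} (hB : MeasurableSet B) (k : ℕ) :
    μ.real (hit T B (k + 1)) ≤ μ.real (hit T B k) + μ.real B := by
  rw [hit_succ]
  refine (measureReal_union_le _ _).trans ?_
  rw [real_preimage hT hB]

/-- centred indicator -/
noncomputable def cen (μ : Measure X) (E : Set X) (x : X) : ℝ := E.indicator (fun _ => (1:ℝ)) x - μ.real E

lemma cen_meas {E : Set X} (hE : MeasurableSet E) : Measurable (cen μ E) := by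
  unfold cen
  exact (measurable_const.indicator hE).sub_const _

lemma ind_nonneg (E : Set X) (x : X) : 0 ≤ E.indicator (fun _ => (1:ℝ)) x := by
  by_cases h : x ∈ E <;> simp [h]

lemma ind_le_one (E : Set X) (x : X) : E.indicator (fun _ => (1:ℝ)) x ≤ 1 := by
  by_cases h : x ∈ E <;> simp [h]

lemma cen_bdd (E : Set X) (x : X) : |cen μ E x| ≤ 1 := by
  unfold cen
  have h1 := ind_nonneg E x
  have h2 := ind_le_one E x
  have h3 : 0 ≤ μ.real E := measureReal_nonneg
  have h4 : μ.real E ≤ 1 := measureReal_le_one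
  rw [abs_le]; constructor <;> linarith

lemma int_ind {E : Set X} (hE : MeasurableSet E) :
    ∫ x, E.indicator (fun _ => (1:ℝ)) x ∂μ = μ.real E := by
  rw [integral_indicator_const _ hE]; simp

lemma integrable_ind {E : Set X} (hE : MeasurableSet E) :
    Integrable (fun x => E.indicator (fun _ => (1:ℝ)) x) μ := by
  exact (integrable_const (1:ℝ)).indicator hE

lemma cen_int {E : Set X} (hE : MeasurableSet E) : ∫ x, cen μ E x ∂μ = 0 := by
  unfold cen
  rw [integral_sub (integrable_ind hE) (integrable_const _), int_ind hE]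
  simp

lemma cen_corr (hT : MeasurePreserving T μ μ) {E F : Set X} (hE : MeasurableSet E)
    (hF : MeasurableSet F) (n : ℕ) :
    ∫ x, cen μ E x * cen μ F (T^[n] x) ∂μ = μ.real (E ∩ T^[n] ⁻¹' F) - μ.real E * μ.real F := by
  have hF' : MeasurableSet (T^[n] ⁻¹' F) := (hT.iterate n).measurable hF
  have hEF : MeasurableSet (E ∩ T^[n] ⁻¹' F) := hE.inter hF'
  have key : ∀ x, cen μ E x * cen μ F (T^[n] x)
      = (E ∩ T^[n] ⁻¹' F).indicator (fun _ => (1:ℝ)) x
        - μ.real F * E.indicator (fun _ => (1:ℝ)) x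
        - μ.real E * (T^[n] ⁻¹' F).indicator (fun _ => (1:ℝ)) x + μ.real E * μ.real F := by
    intro x
    unfold cen
    by_cases h1 : x ∈ E <;> by_cases h2 : T^[n] x ∈ F <;> simp [Set.indicator, h1, h2] <;> ring
  simp_rw [key]
  rw [integral_add, integral_sub, integral_sub, integral_const_mul, integral_const_mul,
    int_ind hEF, int_ind hE, int_ind hF', real_preimage hT hF]
  · simp; ring
  · exact integrable_ind hEF
  · exact (integrable_ind hE).const_mul _
  · exact (integrable_ind hEF).sub ((integrable_ind hE).const_mul _)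
  · exact (integrable_ind hF').const_mul _
  · exact ((integrable_ind hEF).sub ((integrable_ind hE).const_mul _)).sub
      ((integrable_ind hF').const_mul _)
  · exact integrable_const _

/-- almost invariant sets of measure near one half -/
lemma almost_inv (hmix : Mix μ T) (hT : MeasurePreserving T μ μ) {A : Set X}
    (hA : MeasurableSet A) (h0 : 0 < μ.real A) (h1 : μ.real A < 1) {δ : ℝ} (hδ : 0 < δ) :
    ∃ E : Set X, MeasurableSet E ∧ 3 / 16 ≤ ∫ x, cen μ E x * cen μ E x ∂μ ∧
      ∫ x, |cen μ E (T x) - cen μ E x| ∂μ ≤ δ := by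
  have hρ : (1 + μ.real A) / 2 < 1 := by linarith
  have hρ0 : 0 ≤ (1 + μ.real A) / 2 := by linarith
  have hmin : 0 < min (1/4 : ℝ) (δ / 2) := by positivity
  obtain ⟨k, hk⟩ := exists_pow_lt_of_lt_one hmin hρ
  obtain ⟨B, hB, hB0, hBk⟩ := small_set hmix hT hA h0 h1 k
  have hB4 : μ.real B ≤ 1/4 := hBk.trans (hk.le.trans (min_le_left _ _))
  have hBd : μ.real B ≤ δ / 2 := hBk.trans (hk.le.trans (min_le_right _ _))
  have hex : ∃ m, (1/2 : ℝ) ≤ μ.real (hit T B m) := by
    have := (hit_exhaust hmix hT hB hB0).eventually (lt_mem_nhds (show (1/2 : ℝ) < 1 by norm_num))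
    obtain ⟨m, hm⟩ := this.exists
    exact ⟨m, hm.le⟩
  classical
  let m := Nat.find hex
  have hm : (1/2 : ℝ) ≤ μ.real (hit T B m) := Nat.find_spec hex
  have hm0 : m ≠ 0 := by
    intro h
    rw [h] at hm
    simp [hit] at hm
    linarith
  obtain ⟨p, hp⟩ := Nat.exists_eq_succ_of_ne_zero hm0
  have hplt : μ.real (hit T B p) < 1/2 := by
    have := Nat.find_min hex (m := p) (by show p < m; omega)
    push Not at this
    exact this
  have hup : μ.real (hit T B m) ≤ 3/4 := by
    rw [hp]
    have := hit_le_succ hT hB p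
    linarith
  have hE : MeasurableSet (hit T B m) := hit_meas hT hB m
  refine ⟨hit T B m, hE, ?_, ?_⟩
  · have := cen_corr hT hE hE 0
    simp only [Function.iterate_zero, id_eq, Set.preimage_id, Set.inter_self] at this
    rw [this]
    nlinarith
  · have hpt : ∀ x, |cen μ (hit T B m) (T x) - cen μ (hit T B m) x|
        ≤ B.indicator (fun _ => (1:ℝ)) x + (T^[m] ⁻¹' B).indicator (fun _ => (1:ℝ)) x := by
      intro x
      have e1 : cen μ (hit T B m) (T x) - cen μ (hit T B m) x
        = (hit T B m).indicator (fun _ => (1:ℝ)) (T x) - (hit T B m).indicator (fun _ => (1:ℝ)) x := by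
        unfold cen; ring
      rw [e1]
      have p1 := ind_nonneg B x
      have p2 := ind_nonneg (T^[m] ⁻¹' B) x
      by_cases h1 : T x ∈ hit T B m
      · by_cases h2 : x ∈ hit T B m
        · simp only [Set.indicator_of_mem h1, Set.indicator_of_mem h2, sub_self, abs_zero]
          linarith
        · have h3 : x ∈ T^[m] ⁻¹' B := by
            rw [mem_hit_T] at h1
            rw [mem_hit] at h2
            push Not at h2
            obtain ⟨j, hj, hjB⟩ := h1
            by_cases hjm : j + 1 < m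
            · exact absurd hjB (h2 (j+1) hjm)
            · have : j + 1 = m := by omega
              rw [Set.mem_preimage, ← this]; exact hjB
          simp only [Set.indicator_of_mem h1, Set.indicator_of_notMem h2,
            Set.indicator_of_mem h3, sub_zero, abs_one]
          linarith
      · by_cases h2 : x ∈ hit T B m
        · have h3 : x ∈ B := by
            rw [mem_hit_T] at h1
            rw [mem_hit] at h2
            push Not at h1
            obtain ⟨j, hj, hjB⟩ := h2
            rcases Nat.eq_zero_or_pos j with h | h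
            · subst h; simpa using hjB
            · exfalso
              have := h1 (j-1) (by omega)
              rw [Nat.sub_add_cancel h] at this
              exact this hjB
          simp only [Set.indicator_of_notMem h1, Set.indicator_of_mem h2,
            Set.indicator_of_mem h3, zero_sub, abs_neg, abs_one]
          linarith
        · simp only [Set.indicator_of_notMem h1, Set.indicator_of_notMem h2, sub_self, abs_zero]
          linarith
    have hBm : MeasurableSet (T^[m] ⁻¹' B) := (hT.iterate m).measurable hB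
    have hint : Integrable (fun x => |cen μ (hit T B m) (T x) - cen μ (hit T B m) x|) μ := by
      apply Integrable.abs
      apply integrable_of_bdd (C := 2)
      · exact ((cen_meas hE).comp hT.measurable).sub (cen_meas hE)
      · intro x
        have a1 := cen_bdd (μ := μ) (hit T B m) (T x)
        have a2 := cen_bdd (μ := μ) (hit T B m) x
        rw [abs_le] at a1 a2 ⊢
        constructor <;> linarith
    calc ∫ x, |cen μ (hit T B m) (T x) - cen μ (hit T B m) x| ∂μ
        ≤ ∫ x, (B.indicator (fun _ => (1:ℝ)) x + (T^[m] ⁻¹' B).indicator (fun _ => (1:ℝ)) x) ∂μ :=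
          integral_mono hint ((integrable_ind hB).add (integrable_ind hBm)) hpt
      _ = μ.real B + μ.real B := by
          rw [integral_add (integrable_ind hB) (integrable_ind hBm), int_ind hB, int_ind hBm,
            real_preimage hT hB]
      _ ≤ δ := by linarith


/-- the class of functions used in the construction -/
structure Ok (μ : Measure X) (T : X → X) (f : X → ℝ) : Prop where
  meas : Measurable f
  bdd : ∃ C : ℝ, 0 ≤ C ∧ ∀ x, |f x| ≤ C
  mean : ∫ x, f x ∂μ = 0
  right : ∀ E : Set X, MeasurableSet E →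
    Tendsto (fun n : ℕ => ∫ x, f x * cen μ E (T^[n] x) ∂μ) atTop (𝓝 0)
  left : ∀ E : Set X, MeasurableSet E →
    Tendsto (fun n : ℕ => ∫ x, cen μ E x * f (T^[n] x) ∂μ) atTop (𝓝 0)
  self : Tendsto (fun n : ℕ => ∫ x, f x * f (T^[n] x) ∂μ) atTop (𝓝 0)

lemma ok_zero : Ok μ T (fun _ => (0:ℝ)) where
  meas := measurable_const
  bdd := ⟨0, le_rfl, by simp⟩
  mean := by simp
  right := by intro E _; simp
  left := by intro E _; simp
  self := by simp

lemma int_prod_bdd (hT : MeasurePreserving T μ μ) {f g : X → ℝ} (hf : Measurable f)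
    (hg : Measurable g) {C D : ℝ} (hC0 : 0 ≤ C) (hC : ∀ x, |f x| ≤ C) (hD : ∀ x, |g x| ≤ D)
    (m n : ℕ) : Integrable (fun x => f (T^[m] x) * g (T^[n] x)) μ := by
  apply integrable_of_bdd (C := C * D)
  · exact (hf.comp (hT.iterate m).measurable).mul (hg.comp (hT.iterate n).measurable)
  · intro x
    rw [abs_mul]
    exact mul_le_mul (hC _) (hD _) (abs_nonneg _) hC0

lemma cen_corr_lim (hmix : Mix μ T) (hT : MeasurePreserving T μ μ) {E F : Set X}
    (hE : MeasurableSet E) (hF : MeasurableSet F) :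
    Tendsto (fun n : ℕ => ∫ x, cen μ E x * cen μ F (T^[n] x) ∂μ) atTop (𝓝 0) := by
  have h := hmix E F hE hF
  have h2 := h.sub_const (μ.real E * μ.real F)
  rw [sub_self] at h2
  exact h2.congr (fun n => (cen_corr hT hE hF n).symm)

/-- expansion of the autocorrelation after one step -/
lemma corr_add (hT : MeasurePreserving T μ μ) {f : X → ℝ} (hf : Measurable f)
    (hfb : ∃ C : ℝ, 0 ≤ C ∧ ∀ x, |f x| ≤ C)
    {E : Set X} (hE : MeasurableSet E) (a : ℝ) (n : ℕ) :
    ∫ x, (f x + a * cen μ E x) * (f (T^[n] x) + a * cen μ E (T^[n] x)) ∂μ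
      = ∫ x, f x * f (T^[n] x) ∂μ + a * ∫ x, f x * cen μ E (T^[n] x) ∂μ
        + a * ∫ x, cen μ E x * f (T^[n] x) ∂μ
        + a * a * ∫ x, cen μ E x * cen μ E (T^[n] x) ∂μ := by
  obtain ⟨C, hC0, hC⟩ := hfb
  have hce := cen_meas (μ := μ) hE
  have i1 : Integrable (fun x => f x * cen μ E (T^[n] x)) μ :=
    int_prod_bdd hT hf hce hC0 hC (cen_bdd E) 0 n
  have i2 : Integrable (fun x => cen μ E x * f (T^[n] x)) μ :=
    int_prod_bdd hT hce hf zero_le_one (cen_bdd E) hC 0 n
  have i3 : Integrable (fun x => f x * f (T^[n] x)) μ :=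
    int_prod_bdd hT hf hf hC0 hC hC 0 n
  have i4 : Integrable (fun x => cen μ E x * cen μ E (T^[n] x)) μ :=
    int_prod_bdd hT hce hce zero_le_one (cen_bdd E) (cen_bdd E) 0 n
  have key : ∀ x, (f x + a * cen μ E x) * (f (T^[n] x) + a * cen μ E (T^[n] x))
      = f x * f (T^[n] x) + a * (f x * cen μ E (T^[n] x)) + a * (cen μ E x * f (T^[n] x))
        + a * a * (cen μ E x * cen μ E (T^[n] x)) := fun x => by ring
  simp_rw [key]
  rw [integral_add, integral_add, integral_add, integral_const_mul, integral_const_mul,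
    integral_const_mul]
  · exact i3
  · exact i1.const_mul a
  · exact i3.add (i1.const_mul a)
  · exact i2.const_mul a
  · exact (i3.add (i1.const_mul a)).add (i2.const_mul a)
  · exact i4.const_mul (a * a)

lemma ok_add (hmix : Mix μ T) (hT : MeasurePreserving T μ μ) {f : X → ℝ} (hf : Ok μ T f)
    {E : Set X} (hE : MeasurableSet E) (a : ℝ) :
    Ok μ T (fun x => f x + a * cen μ E x) := by
  obtain ⟨C, hC0, hC⟩ := hf.bdd
  have hce := cen_meas (μ := μ) hE
  have i1 : ∀ n : ℕ, Integrable (fun x => f x * cen μ E (T^[n] x)) μ := fun n =>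
    int_prod_bdd hT hf.meas hce hC0 hC (cen_bdd E) 0 n
  have i2 : ∀ n : ℕ, Integrable (fun x => cen μ E x * f (T^[n] x)) μ := fun n =>
    int_prod_bdd hT hce hf.meas zero_le_one (cen_bdd E) hC 0 n
  have i3 : ∀ n : ℕ, Integrable (fun x => f x * f (T^[n] x)) μ := fun n =>
    int_prod_bdd hT hf.meas hf.meas hC0 hC hC 0 n
  have i4 : ∀ (F : Set X), MeasurableSet F → ∀ n : ℕ,
      Integrable (fun x => cen μ E x * cen μ F (T^[n] x)) μ := fun F hF n =>
    int_prod_bdd hT hce (cen_meas (μ := μ) hF) zero_le_one (cen_bdd E) (cen_bdd F) 0 n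
  have i5 : ∀ (F : Set X), MeasurableSet F → ∀ n : ℕ,
      Integrable (fun x => cen μ F x * cen μ E (T^[n] x)) μ := fun F hF n =>
    int_prod_bdd hT (cen_meas (μ := μ) hF) hce zero_le_one (cen_bdd F) (cen_bdd E) 0 n
  have i6 : ∀ (F : Set X), MeasurableSet F → ∀ n : ℕ,
      Integrable (fun x => f x * cen μ F (T^[n] x)) μ := fun F hF n =>
    int_prod_bdd hT hf.meas (cen_meas (μ := μ) hF) hC0 hC (cen_bdd F) 0 n
  have i7 : ∀ (F : Set X), MeasurableSet F → ∀ n : ℕ,
      Integrable (fun x => cen μ F x * f (T^[n] x)) μ := fun F hF n =>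
    int_prod_bdd hT (cen_meas (μ := μ) hF) hf.meas zero_le_one (cen_bdd F) hC 0 n
  refine ⟨hf.meas.add (hce.const_mul a), ⟨C + |a|, by positivity, ?_⟩, ?_, ?_, ?_, ?_⟩
  · intro x
    refine (abs_add_le _ _).trans (add_le_add (hC x) ?_)
    rw [abs_mul]
    have := cen_bdd (μ := μ) E x
    nlinarith [abs_nonneg a]
  · rw [integral_add (integrable_of_bdd hf.meas hC)
      ((integrable_of_bdd hce (cen_bdd E)).const_mul a), integral_const_mul, hf.mean, cen_int hE]
    simp
  · intro F hF
    have h1 := (hf.right F hF).add ((cen_corr_lim hmix hT hE hF).const_mul a)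
    simp only [mul_zero, add_zero] at h1
    refine h1.congr (fun n => ?_)
    rw [← integral_const_mul, ← integral_add (i6 F hF n) ((i4 F hF n).const_mul a)]
    congr 1; ext x; ring
  · intro F hF
    have h1 := (hf.left F hF).add ((cen_corr_lim hmix hT hF hE).const_mul a)
    simp only [mul_zero, add_zero] at h1
    refine h1.congr (fun n => ?_)
    rw [← integral_const_mul, ← integral_add (i7 F hF n) ((i5 F hF n).const_mul a)]
    congr 1; ext x; ring
  · have h1 := (((hf.self).add ((hf.right E hE).const_mul a)).add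
      ((hf.left E hE).const_mul a)).add ((cen_corr_lim hmix hT hE hE).const_mul (a*a))
    simp only [mul_zero, add_zero] at h1
    exact h1.congr (fun n => (corr_add hT hf.meas hf.bdd hE a n).symm)

/-- the averages along a sparse progression are small in the mean -/
lemma avg_small (hT : MeasurePreserving T μ μ) {f : X → ℝ} (hf : Ok μ T f) {s : ℝ} (hs : 0 < s) :
    ∃ P J : ℕ, 0 < J ∧
      ∫ x, |(∑ j ∈ Finset.range J, f (T^[j * P] x)) / J| ∂μ ≤ s := by
  obtain ⟨C, hC0, hC⟩ := hf.bdd
  have hs2 : 0 < s ^ 2 / 2 := by positivity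
  have hev := (Metric.tendsto_atTop.1 hf.self) (s^2/2) hs2
  obtain ⟨P, hP⟩ := hev
  obtain ⟨J, hJ⟩ := exists_nat_gt (C^2 / (s^2/2))
  have hJ0 : 0 < (J:ℝ) := lt_of_le_of_lt (by positivity) hJ
  have hJn : 0 < J := by exact_mod_cast hJ0
  refine ⟨P + 1, J, hJn, ?_⟩
  set Q := P + 1 with hQ
  set h : X → ℝ := fun x => (∑ j ∈ Finset.range J, f (T^[j * Q] x)) / J with hh
  have hmj : ∀ j : ℕ, Measurable (fun x => f (T^[j * Q] x)) := fun j =>
    hf.meas.comp (hT.iterate _).measurable
  have hhm : Measurable h := by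
    apply Measurable.div_const
    exact Finset.measurable_fun_sum _ (fun j _ => hmj j)
  have hhb : ∀ x, |h x| ≤ C := by
    intro x
    rw [hh]
    simp only
    rw [abs_div, Nat.abs_cast, div_le_iff₀ hJ0]
    refine (Finset.abs_sum_le_sum_abs _ _).trans ?_
    refine (Finset.sum_le_sum (fun j _ => hC _)).trans ?_
    simp [mul_comm]
  have hpair : ∀ i j : ℕ, i < j → |∫ x, f (T^[i*Q] x) * f (T^[j*Q] x) ∂μ| ≤ s^2/2 := by
    intro i j hij
    have e1 : ∫ x, f (T^[i*Q] x) * f (T^[j*Q] x) ∂μ = ∫ x, f x * f (T^[(j-i)*Q] x) ∂μ := by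
      rw [← int_comp hT (f := fun x => f x * f (T^[(j-i)*Q] x)) _ (i*Q)]
      · congr 1; ext x
        rw [← Function.iterate_add_apply]
        congr 3
        rw [← Nat.add_mul]; congr 1; omega
      · exact hf.meas.mul (hf.meas.comp (hT.iterate _).measurable)
    rw [e1]
    have : P ≤ (j-i)*Q := by
      have : 1 ≤ j - i := by omega
      nlinarith
    have h2 := hP _ this
    rw [Real.dist_eq, sub_zero] at h2
    exact h2.le
  have hdiag : ∀ i : ℕ, |∫ x, f (T^[i*Q] x) * f (T^[i*Q] x) ∂μ| ≤ C^2 := by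
    intro i
    have := norm_integral_le_of_norm_le_const (μ := μ) (C := C^2)
      (f := fun x => f (T^[i*Q] x) * f (T^[i*Q] x)) (Eventually.of_forall (fun x => by
        rw [Real.norm_eq_abs, abs_mul, sq]
        exact mul_le_mul (hC _) (hC _) (abs_nonneg _) hC0))
    simpa [Real.norm_eq_abs] using this
  have hI : ∀ i j : ℕ, Integrable (fun x => f (T^[i*Q] x) * f (T^[j*Q] x)) μ := fun i j =>
    int_prod_bdd hT hf.meas hf.meas hC0 hC hC _ _
  have hsq : ∫ x, h x ^ 2 ∂μ ≤ s^2 := by
    have e1 : ∀ x, h x ^ 2 = (∑ i ∈ Finset.range J, ∑ j ∈ Finset.range J,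
        f (T^[i*Q] x) * f (T^[j*Q] x)) / (J:ℝ)^2 := by
      intro x
      rw [hh]
      simp only
      rw [div_pow, sq, Finset.sum_mul_sum]
    simp_rw [e1]
    rw [integral_div, integral_finsetSum _ (fun i _ => integrable_finsetSum _ (fun j _ => hI i j))]
    simp_rw [integral_finsetSum _ (fun j _ => hI _ j)]
    rw [div_le_iff₀ (by positivity)]
    have hb : ∀ i ∈ Finset.range J, ∑ j ∈ Finset.range J, ∫ x, f (T^[i*Q] x) * f (T^[j*Q] x) ∂μ
        ≤ C^2 + J * (s^2/2) := by
      intro i hi
      rw [← Finset.add_sum_erase _ _ hi]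
      refine add_le_add ((le_abs_self _).trans (hdiag i)) ?_
      have : ∀ j ∈ (Finset.range J).erase i, ∫ x, f (T^[i*Q] x) * f (T^[j*Q] x) ∂μ ≤ s^2/2 := by
        intro j hj
        have hne : j ≠ i := Finset.ne_of_mem_erase hj
        rcases lt_or_gt_of_ne hne with hlt | hgt
        · have := hpair j i hlt
          refine le_trans (le_of_eq ?_) ((le_abs_self _).trans this)
          congr 1; ext x; ring
        · exact (le_abs_self _).trans (hpair i j hgt)
      refine (Finset.sum_le_sum this).trans ?_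
      rw [Finset.sum_const, nsmul_eq_mul]
      have hcard : (((Finset.range J).erase i).card : ℝ) ≤ J := by
        have := Finset.card_erase_le (s := Finset.range J) (a := i)
        rw [Finset.card_range] at this
        exact_mod_cast this
      exact mul_le_mul_of_nonneg_right hcard hs2.le
    refine (Finset.sum_le_sum hb).trans ?_
    rw [Finset.sum_const, Finset.card_range, nsmul_eq_mul]
    have : C^2 ≤ J * (s^2/2) := by
      rw [div_lt_iff₀ hs2] at hJ
      exact hJ.le
    nlinarith
  have hI2 : Integrable (fun x => h x ^ 2) μ := by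
    apply integrable_of_bdd (C := C^2) (hhm.pow_const 2)
    intro x
    rw [abs_pow]
    exact pow_le_pow_left₀ (abs_nonneg _) (hhb x) 2
  have hfin : ∫ x, |h x| ∂μ ≤ ∫ x, (h x ^ 2 / (2*s) + s/2) ∂μ := by
    apply integral_mono
    · exact (integrable_of_bdd hhm hhb).abs
    · exact (hI2.div_const _).add (integrable_const _)
    · intro x
      simp only
      have : h x ^ 2 / (2*s) + s/2 - |h x| = (|h x| - s)^2 / (2*s) := by
        field_simp
        rw [sub_sq, sq_abs]; ring
      have h2 : 0 ≤ (|h x| - s)^2 / (2*s) := by positivity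
      linarith
  rw [integral_add (hI2.div_const _) (integrable_const _), integral_div] at hfin
  simp only [integral_const, probReal_univ, smul_eq_mul, one_mul] at hfin
  refine hfin.trans ?_
  have : (∫ x, h x ^ 2 ∂μ) / (2*s) ≤ s/2 := by
    rw [div_le_iff₀ (by positivity)]
    nlinarith
  linarith

/-- almost invariant functions move slowly -/
lemma slow (hT : MeasurePreserving T μ μ) {g : X → ℝ} (hg : Measurable g)
    (hg1 : ∀ x, |g x| ≤ 1) {δ : ℝ} (hδ : ∫ x, |g (T x) - g x| ∂μ ≤ δ) (n : ℕ) :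
    ∫ x, |g (T^[n] x) - g x| ∂μ ≤ n * δ := by
  induction n with
  | zero => simp
  | succ n ih =>
    have m1 : Measurable (fun x => g (T^[n] x)) := hg.comp (hT.iterate n).measurable
    have m2 : Measurable (fun x => g (T^[n+1] x)) := hg.comp (hT.iterate (n+1)).measurable
    have b : ∀ (u v : X → ℝ), (∀ x, |u x| ≤ 1) → (∀ x, |v x| ≤ 1) → ∀ x, |u x - v x| ≤ 2 := by
      intro u v hu hv x
      have a1 := hu x
      have a2 := hv x
      rw [abs_le] at a1 a2 ⊢
      constructor <;> linarith
    have I1 : Integrable (fun x => |g (T^[n] x) - g x|) μ :=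
      (integrable_of_bdd (m1.sub hg) (b _ _ (fun x => hg1 _) (fun x => hg1 _))).abs
    have I2 : Integrable (fun x => |g (T^[n+1] x) - g (T^[n] x)|) μ :=
      (integrable_of_bdd (m2.sub m1) (b _ _ (fun x => hg1 _) (fun x => hg1 _))).abs
    have I3 : Integrable (fun x => |g (T^[n+1] x) - g x|) μ :=
      (integrable_of_bdd (m2.sub hg) (b _ _ (fun x => hg1 _) (fun x => hg1 _))).abs
    have e : ∫ x, |g (T^[n+1] x) - g (T^[n] x)| ∂μ = ∫ x, |g (T x) - g x| ∂μ := by
      rw [← int_comp hT (f := fun x => |g (T x) - g x|) _ n]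
      · congr 1; ext x
        rw [Function.iterate_succ_apply']
      · exact ((hg.comp hT.measurable).sub hg).abs
    calc ∫ x, |g (T^[n+1] x) - g x| ∂μ
        ≤ ∫ x, (|g (T^[n+1] x) - g (T^[n] x)| + |g (T^[n] x) - g x|) ∂μ :=
          integral_mono I3 (I2.add I1) (fun x => abs_sub_le _ _ _)
      _ = ∫ x, |g (T x) - g x| ∂μ + ∫ x, |g (T^[n] x) - g x| ∂μ := by
          rw [integral_add I2 I1, e]
      _ ≤ δ + n * δ := add_le_add hδ ih
      _ = (n+1 : ℕ) * δ := by push_cast; ring


lemma abs_int_le_of_bdd {u v : X → ℝ} (hu : Measurable u) (hv : Measurable v) {C D : ℝ}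
    (hC : ∀ x, |u x| ≤ C) (hD : ∀ x, |v x| ≤ D) :
    |∫ x, u x * v x ∂μ| ≤ C * ∫ x, |v x| ∂μ := by
  have h1 : |∫ x, u x * v x ∂μ| ≤ ∫ x, |u x * v x| ∂μ := by
    have := norm_integral_le_integral_norm (μ := μ) (fun x => u x * v x)
    simpa [Real.norm_eq_abs, abs_mul] using this
  refine h1.trans ?_
  rw [← integral_const_mul]
  apply integral_mono
  · apply Integrable.abs
    apply integrable_of_bdd (C := C * D) (hu.mul hv)
    intro x
    rw [Pi.mul_apply, abs_mul]
    exact mul_le_mul (hC x) (hD x) (abs_nonneg _) ((abs_nonneg _).trans (hC x))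
  · exact (integrable_of_bdd hv hD).abs.const_mul C
  · intro x
    simp only
    rw [abs_mul]
    exact mul_le_mul_of_nonneg_right (hC x) (abs_nonneg _)

/-- a slowly moving function is uniformly uncorrelated with a given function of the class -/
lemma decor (hT : MeasurePreserving T μ μ) {f : X → ℝ} (hf : Ok μ T f) {ε : ℝ} (hε : 0 < ε) :
    ∃ δ : ℝ, 0 < δ ∧ ∀ g : X → ℝ, Measurable g → (∀ x, |g x| ≤ 1) →
      ∫ x, |g (T x) - g x| ∂μ ≤ δ → ∀ n : ℕ,
        |∫ x, f x * g (T^[n] x) ∂μ| ≤ ε ∧ |∫ x, g x * f (T^[n] x) ∂μ| ≤ ε := by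
  obtain ⟨C, hC0, hC⟩ := hf.bdd
  obtain ⟨P, J, hJ, hs⟩ := avg_small hT hf (half_pos hε)
  have hJ0 : (0:ℝ) < J := by exact_mod_cast hJ
  have hden : 0 < C * (J * P : ℕ) + 1 := by positivity
  refine ⟨(ε / 2) / (C * (J * P : ℕ) + 1), by positivity, ?_⟩
  intro g hg hg1 hgδ n
  set δ := (ε / 2) / (C * (J * P : ℕ) + 1) with hδ
  have hδ0 : 0 < δ := by positivity
  have hCδ : C * ((J * P : ℕ) * δ) ≤ ε / 2 := by
    have : (C * (J * P : ℕ) + 1) * δ = ε / 2 := by
      rw [hδ]; field_simp
    nlinarith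
  have hslow : ∀ j < J, C * ∫ x, |g (T^[j*P] x) - g x| ∂μ ≤ ε / 2 := by
    intro j hj
    refine le_trans (mul_le_mul_of_nonneg_left (slow hT hg hg1 hgδ (j*P)) hC0) ?_
    refine le_trans (mul_le_mul_of_nonneg_left ?_ hC0) hCδ
    apply mul_le_mul_of_nonneg_right _ hδ0.le
    have : j * P ≤ J * P := Nat.mul_le_mul_right P hj.le
    exact_mod_cast this
  have hmj : ∀ j : ℕ, Measurable (fun x => f (T^[j] x)) := fun j =>
    hf.meas.comp (hT.iterate _).measurable
  have hgj : ∀ j : ℕ, Measurable (fun x => g (T^[j] x)) := fun j =>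
    hg.comp (hT.iterate _).measurable
  set h : X → ℝ := fun x => (∑ j ∈ Finset.range J, f (T^[j * P] x)) / J with hh
  have hhm : Measurable h := by
    apply Measurable.div_const
    exact Finset.measurable_fun_sum _ (fun j _ => hmj _)
  have hhb : ∀ x, |h x| ≤ C := by
    intro x
    rw [hh]
    simp only
    rw [abs_div, Nat.abs_cast, div_le_iff₀ hJ0]
    refine (Finset.abs_sum_le_sum_abs _ _).trans ?_
    refine (Finset.sum_le_sum (fun j _ => hC _)).trans ?_
    simp [mul_comm]
  -- generic averaging principle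
  have avg : ∀ (a : ℝ) (b : ℕ → ℝ) (M : ℝ), (∀ j < J, |a - b j| ≤ ε / 2) →
      (∑ j ∈ Finset.range J, b j) / J = M → |M| ≤ ε / 2 → |a| ≤ ε := by
    intro a b M hab hM hMs
    have h1 : a - M = (∑ j ∈ Finset.range J, (a - b j)) / J := by
      rw [Finset.sum_sub_distrib, Finset.sum_const, Finset.card_range, nsmul_eq_mul, sub_div, hM]
      field_simp
    have h2 : |a - M| ≤ ε / 2 := by
      rw [h1, abs_div, Nat.abs_cast, div_le_iff₀ hJ0]
      refine (Finset.abs_sum_le_sum_abs _ _).trans ?_
      refine (Finset.sum_le_sum (fun j hj => hab j (Finset.mem_range.1 hj))).trans ?_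
      simp [mul_comm]
    have h3 : |a| ≤ |a - M| + |M| := by
      have := abs_add_le (a - M) M
      simpa using this
    linarith
  constructor
  · apply avg _ (fun j => ∫ x, f (T^[j*P] x) * g (T^[n] x) ∂μ) (∫ x, h x * g (T^[n] x) ∂μ)
    · intro j hj
      have e1 : ∫ x, f x * g (T^[n] x) ∂μ = ∫ x, f (T^[j*P] x) * g (T^[n + j*P] x) ∂μ := by
        rw [← int_comp hT (f := fun x => f x * g (T^[n] x)) (hf.meas.mul (hgj n)) (j*P)]
        congr 1; ext x
        rw [← Function.iterate_add_apply]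
      rw [e1, ← integral_sub (int_prod_bdd hT hf.meas hg hC0 hC hg1 _ _)
        (int_prod_bdd hT hf.meas hg hC0 hC hg1 _ _)]
      have e2 : ∀ x, f (T^[j*P] x) * g (T^[n + j*P] x) - f (T^[j*P] x) * g (T^[n] x)
          = f (T^[j*P] x) * (g (T^[n + j*P] x) - g (T^[n] x)) := fun x => by ring
      simp_rw [e2]
      refine (abs_int_le_of_bdd (u := fun x => f (T^[j*P] x))
        (v := fun x => g (T^[n + j*P] x) - g (T^[n] x)) (hmj _) ((hgj _).sub (hgj _)) (fun x => hC _)
        (D := 2) (fun x => ?_)).trans ?_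
      · have a1 := hg1 (T^[n + j*P] x)
        have a2 := hg1 (T^[n] x)
        rw [abs_le] at a1 a2 ⊢
        constructor <;> linarith
      · have e3 : ∫ x, |g (T^[n + j*P] x) - g (T^[n] x)| ∂μ = ∫ x, |g (T^[j*P] x) - g x| ∂μ := by
          rw [← int_comp hT (f := fun x => |g (T^[j*P] x) - g x|) ((hgj _).sub hg).abs n]
          congr 1; ext x
          rw [← Function.iterate_add_apply, Nat.add_comm]
        rw [e3]
        exact hslow j hj
    · rw [← integral_finsetSum _ (fun j _ => int_prod_bdd hT hf.meas hg hC0 hC hg1 _ _),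
        ← integral_div]
      congr 1; ext x
      rw [hh]
      simp only
      rw [← Finset.sum_mul]; ring
    · have := abs_int_le_of_bdd (μ := μ) (u := fun x => g (T^[n] x)) (v := h) (hgj n) hhm
        (fun x => hg1 _) hhb
      rw [one_mul] at this
      refine le_trans (le_of_eq ?_) (this.trans hs)
      congr 1; congr 1; ext x; ring
  · apply avg _ (fun j => ∫ x, g x * f (T^[j*P] (T^[n] x)) ∂μ) (∫ x, g x * h (T^[n] x) ∂μ)
    · intro j hj
      have e1 : ∫ x, g x * f (T^[n] x) ∂μ = ∫ x, g (T^[j*P] x) * f (T^[j*P] (T^[n] x)) ∂μ := by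
        rw [← int_comp hT (f := fun x => g x * f (T^[n] x)) (hg.mul (hmj n)) (j*P)]
        congr 1; ext x
        rw [← Function.iterate_add_apply, ← Function.iterate_add_apply, Nat.add_comm]
      have m1 : Measurable (fun x => f (T^[j*P] (T^[n] x))) :=
        (hmj (j*P)).comp (hT.iterate n).measurable
      have I1 : Integrable (fun x => g (T^[j*P] x) * f (T^[j*P] (T^[n] x))) μ := by
        apply integrable_of_bdd (C := 1 * C) ((hgj _).mul m1)
        intro x
        rw [Pi.mul_apply, abs_mul]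
        exact mul_le_mul (hg1 _) (hC _) (abs_nonneg _) zero_le_one
      have I2 : Integrable (fun x => g x * f (T^[j*P] (T^[n] x))) μ := by
        apply integrable_of_bdd (C := 1 * C) (hg.mul m1)
        intro x
        rw [Pi.mul_apply, abs_mul]
        exact mul_le_mul (hg1 _) (hC _) (abs_nonneg _) zero_le_one
      rw [e1, ← integral_sub I1 I2]
      have e2 : ∀ x, g (T^[j*P] x) * f (T^[j*P] (T^[n] x)) - g x * f (T^[j*P] (T^[n] x))
          = f (T^[j*P] (T^[n] x)) * (g (T^[j*P] x) - g x) := fun x => by ring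
      simp_rw [e2]
      refine (abs_int_le_of_bdd (u := fun x => f (T^[j*P] (T^[n] x)))
        (v := fun x => g (T^[j*P] x) - g x) m1 ((hgj _).sub hg) (fun x => hC _)
        (D := 2) (fun x => ?_)).trans ?_
      · have a1 := hg1 (T^[j*P] x)
        have a2 := hg1 x
        rw [abs_le] at a1 a2 ⊢
        constructor <;> linarith
      · exact hslow j hj
    · have I2 : ∀ j, Integrable (fun x => g x * f (T^[j*P] (T^[n] x))) μ := by
        intro j
        have m1 : Measurable (fun x => f (T^[j*P] (T^[n] x))) :=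
          (hmj (j*P)).comp (hT.iterate n).measurable
        apply integrable_of_bdd (C := 1 * C) (hg.mul m1)
        intro x
        rw [Pi.mul_apply, abs_mul]
        exact mul_le_mul (hg1 _) (hC _) (abs_nonneg _) zero_le_one
      rw [← integral_finsetSum _ (fun j _ => I2 j), ← integral_div]
      congr 1; ext x
      rw [hh]
      simp only
      rw [← Finset.mul_sum]; ring
    · have hm2 : Measurable (fun x => h (T^[n] x)) := hhm.comp (hT.iterate n).measurable
      have := abs_int_le_of_bdd (μ := μ) (u := g) (v := fun x => h (T^[n] x)) hg hm2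
        hg1 (fun x => hhb _)
      rw [one_mul, int_comp hT (f := fun x => |h x|) hhm.abs n] at this
      exact this.trans hs

/-- the ratio used in the construction -/
noncomputable def th : ℝ := 49 / 50

/-- the error allowed at step `m` -/
noncomputable def er (m : ℕ) : ℝ := th ^ (2 * m) / 100

/-- admissible states at step `m` -/
structure St (μ : Measure X) (T : X → X) (m : ℕ) where
  f : X → ℝ
  N : ℕ
  ok : Ok μ T f
  small : ∀ n : ℕ, N < n → |∫ x, f x * f (T^[n] x) ∂μ| ≤ er m

lemma th_pos : 0 < th := by unfold th; norm_num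
lemma er_pos (m : ℕ) : 0 < er m := by unfold er; have := th_pos; positivity

lemma next_step (hmix : Mix μ T) (hT : MeasurePreserving T μ μ) {A : Set X}
    (hA : MeasurableSet A) (h0 : 0 < μ.real A) (h1 : μ.real A < 1) (m : ℕ) (p : St μ T m) :
    ∃ (q : St μ T (m+1)) (E : Set X), MeasurableSet E ∧
      (∀ x, q.f x = p.f x + th ^ m * cen μ E x) ∧ p.N < q.N ∧
      (∀ n : ℕ, n ≤ p.N → 1 / 8 ≤ ∫ x, cen μ E x * cen μ E (T^[n] x) ∂μ) ∧
      (∀ n : ℕ, |∫ x, p.f x * cen μ E (T^[n] x) ∂μ| ≤ er m ∧
        |∫ x, cen μ E x * p.f (T^[n] x) ∂μ| ≤ er m) := by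
  obtain ⟨δ, hδ0, hδ⟩ := decor hT p.ok (er_pos m)
  have hmin : 0 < min δ (1 / (16 * (p.N + 1 : ℝ))) := by positivity
  obtain ⟨E, hE, hE1, hE2⟩ := almost_inv hmix hT hA h0 h1 hmin
  have hE3 := hδ (cen μ E) (cen_meas hE) (cen_bdd E) (hE2.trans (min_le_left _ _))
  have hok : Ok μ T (fun x => p.f x + th ^ m * cen μ E x) := ok_add hmix hT p.ok hE (th ^ m)
  obtain ⟨N1, hN1⟩ := (Metric.tendsto_atTop.1 hok.self) (er (m+1)) (er_pos _)
  refine ⟨⟨fun x => p.f x + th ^ m * cen μ E x, max (p.N + 1) N1, hok, ?_⟩, E, hE, ?_, ?_, ?_, hE3⟩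
  · intro n hn
    have := hN1 n (le_trans (le_max_right _ _) hn.le)
    rw [Real.dist_eq, sub_zero] at this
    exact this.le
  · intro x; rfl
  · exact lt_of_lt_of_le (Nat.lt_succ_self _) (le_max_left _ _)
  · intro n hn
    have hs := slow hT (cen_meas (μ := μ) hE) (cen_bdd E) (hE2.trans (min_le_right _ _)) n
    have hs2 : ∫ x, |cen μ E (T^[n] x) - cen μ E x| ∂μ ≤ 1 / 16 := by
      refine hs.trans ?_
      have hn' : (n : ℝ) ≤ p.N + 1 := by
        have : (n : ℝ) ≤ p.N := by exact_mod_cast hn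
        linarith
      have hpN : (0:ℝ) < p.N + 1 := by positivity
      calc (n:ℝ) * (1 / (16 * (p.N + 1 : ℝ))) ≤ (p.N + 1) * (1 / (16 * (p.N + 1 : ℝ))) :=
            mul_le_mul_of_nonneg_right hn' (by positivity)
        _ = 1 / 16 := by field_simp
    have hm1 : Measurable (fun x => cen μ E (T^[n] x)) :=
      (cen_meas hE).comp (hT.iterate n).measurable
    have hb := abs_int_le_of_bdd (μ := μ) (u := cen μ E)
      (v := fun x => cen μ E (T^[n] x) - cen μ E x) (cen_meas hE) (hm1.sub (cen_meas hE))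
      (cen_bdd E) (D := 2) (fun x => by
        have a1 := cen_bdd (μ := μ) E (T^[n] x)
        have a2 := cen_bdd (μ := μ) E x
        rw [abs_le] at a1 a2 ⊢
        constructor <;> linarith)
    rw [one_mul] at hb
    have e1 : ∫ x, cen μ E x * (cen μ E (T^[n] x) - cen μ E x) ∂μ
        = ∫ x, cen μ E x * cen μ E (T^[n] x) ∂μ - ∫ x, cen μ E x * cen μ E x ∂μ := by
      have j1 : Integrable (fun x => cen μ E x * cen μ E (T^[n] x)) μ :=
        int_prod_bdd hT (cen_meas hE) (cen_meas hE) zero_le_one (cen_bdd E) (cen_bdd E) 0 n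
      have j2 : Integrable (fun x => cen μ E x * cen μ E x) μ :=
        int_prod_bdd hT (cen_meas hE) (cen_meas hE) zero_le_one (cen_bdd E) (cen_bdd E) 0 0
      rw [← integral_sub j1 j2]
      congr 1; ext x; ring
    have hb2 := (abs_le.1 (hb.trans hs2)).1
    rw [e1] at hb2
    linarith

theorem main (hmix : Mix μ T) (hT : MeasurePreserving T μ μ) {A : Set X}
    (hA : MeasurableSet A) (h0 : 0 < μ.real A) (h1 : μ.real A < 1) :
    ∃ f : X → ℝ, Measurable f ∧ (∀ x, |f x| ≤ 50) ∧ ∫ x, f x ∂μ = 0 ∧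
      ∀ n : ℕ, 1 ≤ n → 0 < ∫ x, f x * f (T^[n] x) ∂μ := by
  choose nxt En hEn hf hN hdiag hoff using fun (m : ℕ) (p : St μ T m) =>
    next_step hmix hT hA h0 h1 m p
  let s0 : St μ T 0 := ⟨fun _ => 0, 0, ok_zero, by
    intro n _
    simp [(er_pos 0).le]⟩
  let s : (m : ℕ) → St μ T m := fun m => Nat.rec s0 (fun m p => nxt m p) m
  have hs0 : ∀ x, (s 0).f x = 0 := fun x => rfl
  have hs0N : (s 0).N = 0 := rfl
  have hss : ∀ m, s (m+1) = nxt m (s m) := fun m => rfl
  set g : ℕ → X → ℝ := fun m => cen μ (En m (s m)) with hg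
  have hgm : ∀ m, Measurable (g m) := fun m => cen_meas (hEn m (s m))
  have hgb : ∀ m x, |g m x| ≤ 1 := fun m x => cen_bdd _ x
  have hfs : ∀ m x, (s (m+1)).f x = (s m).f x + th ^ m * g m x := by
    intro m x
    rw [hss]; exact hf m (s m) x
  have hsum : ∀ m x, (s m).f x = ∑ i ∈ Finset.range m, th ^ i * g i x := by
    intro m x
    induction m with
    | zero => simp [hs0]
    | succ m ih => rw [hfs, Finset.sum_range_succ, ih]
  have hNlt : ∀ m, (s m).N < (s (m+1)).N := by
    intro m; rw [hss]; exact hN m (s m)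
  have hNge : ∀ m, m ≤ (s m).N := by
    intro m
    induction m with
    | zero => exact Nat.zero_le _
    | succ m ih => have := hNlt m; omega
  have hNmono : Monotone (fun m => (s m).N) := monotone_nat_of_le_succ (fun m => (hNlt m).le)
  have th0 := th_pos
  have th1 : th < 1 := by unfold th; norm_num
  have hgeo : Summable (fun i : ℕ => th ^ i) := summable_geometric_of_lt_one th0.le th1
  have htsum : ∑' i : ℕ, th ^ i = 50 := by
    rw [tsum_geometric_of_lt_one th0.le th1]; unfold th; norm_num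
  have hsummable : ∀ x, Summable (fun i : ℕ => th ^ i * g i x) := by
    intro x
    apply Summable.of_norm_bounded hgeo
    intro i
    rw [Real.norm_eq_abs, abs_mul, abs_of_pos (pow_pos th0 i)]
    have := hgb i x
    have h2 : 0 < th ^ i := pow_pos th0 i
    nlinarith
  let F : X → ℝ := fun x => ∑' i : ℕ, th ^ i * g i x
  have hlim : ∀ x, Tendsto (fun m => (s m).f x) atTop (𝓝 (F x)) := by
    intro x
    have := (hsummable x).hasSum.tendsto_sum_nat
    exact this.congr (fun m => (hsum m x).symm)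
  have hFm : Measurable F := measurable_of_tendsto_metrizable (fun m => (s m).ok.meas)
    (tendsto_pi_nhds.2 hlim)
  have hfb : ∀ m x, |(s m).f x| ≤ 50 := by
    intro m x
    rw [hsum]
    refine (Finset.abs_sum_le_sum_abs _ _).trans ?_
    have h2 : ∀ i ∈ Finset.range m, |th ^ i * g i x| ≤ th ^ i := by
      intro i _
      rw [abs_mul, abs_of_pos (pow_pos th0 i)]
      have := hgb i x
      have h2 : 0 < th ^ i := pow_pos th0 i
      nlinarith
    refine (Finset.sum_le_sum h2).trans ?_
    rw [← htsum]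
    exact hgeo.sum_le_tsum _ (fun i _ => (pow_pos th0 i).le)
  have hFb : ∀ x, |F x| ≤ 50 := fun x => le_of_tendsto (hlim x).abs (Eventually.of_forall (fun m => hfb m x))
  have hmean : ∫ x, F x ∂μ = 0 := by
    have := tendsto_integral_of_dominated_convergence (μ := μ) (F := fun m => (s m).f) (f := F)
      (fun _ => (50:ℝ)) (fun m => (s m).ok.meas.aestronglyMeasurable) (integrable_const _)
      (fun m => Eventually.of_forall (fun x => by rw [Real.norm_eq_abs]; exact hfb m x))
      (Eventually.of_forall hlim)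
    simp only [(s _).ok.mean] at this
    exact (tendsto_nhds_unique tendsto_const_nhds this).symm
  refine ⟨F, hFm, hFb, hmean, ?_⟩
  intro n hn
  have hcl : Tendsto (fun m => ∫ x, (s m).f x * (s m).f (T^[n] x) ∂μ) atTop
      (𝓝 (∫ x, F x * F (T^[n] x) ∂μ)) := by
    apply tendsto_integral_of_dominated_convergence (fun _ => (50*50:ℝ))
    · intro m
      exact ((s m).ok.meas.mul ((s m).ok.meas.comp (hT.iterate n).measurable)).aestronglyMeasurable
    · exact integrable_const _
    · intro m
      refine Eventually.of_forall (fun x => ?_)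
      rw [Real.norm_eq_abs, abs_mul]
      exact mul_le_mul (hfb m _) (hfb m _) (abs_nonneg _) (by norm_num)
    · exact Eventually.of_forall (fun x => (hlim x).mul (hlim _))
  -- the first index i with n ≤ N_i
  classical
  have hex : ∃ i, n ≤ (s i).N := ⟨n, hNge n⟩
  set i := Nat.find hex with hi
  have hi1 : n ≤ (s i).N := Nat.find_spec hex
  have hi0 : i ≠ 0 := by
    intro h
    rw [h, hs0N] at hi1
    omega
  obtain ⟨k, hk⟩ := Nat.exists_eq_succ_of_ne_zero hi0
  have hkN : (s k).N < n := by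
    have := Nat.find_min hex (m := k) (by omega)
    omega
  -- one step of the recursion
  have hstep : ∀ m, ∫ x, (s (m+1)).f x * (s (m+1)).f (T^[n] x) ∂μ
      = ∫ x, (s m).f x * (s m).f (T^[n] x) ∂μ + th ^ m * ∫ x, (s m).f x * g m (T^[n] x) ∂μ
        + th ^ m * ∫ x, g m x * (s m).f (T^[n] x) ∂μ
        + th ^ m * th ^ m * ∫ x, g m x * g m (T^[n] x) ∂μ := by
    intro m
    simp_rw [hfs]
    exact corr_add hT (s m).ok.meas (s m).ok.bdd (hEn m (s m)) (th ^ m) n
  have herr : ∀ m, |∫ x, (s m).f x * g m (T^[n] x) ∂μ| ≤ er m ∧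
      |∫ x, g m x * (s m).f (T^[n] x) ∂μ| ≤ er m := fun m => hoff m (s m) n
  have hthm : ∀ m, th ^ m * er m ≤ er m := by
    intro m
    have : th ^ m ≤ 1 := pow_le_one₀ th0.le th1.le
    have := er_pos m
    nlinarith
  have hthp : ∀ m, 0 ≤ th ^ m := fun m => (pow_pos th0 m).le
  have hlow : ∀ m, ∫ x, (s m).f x * (s m).f (T^[n] x) ∂μ - 2 * er m
      + th ^ m * th ^ m * ∫ x, g m x * g m (T^[n] x) ∂μ
      ≤ ∫ x, (s (m+1)).f x * (s (m+1)).f (T^[n] x) ∂μ := by
    intro m
    rw [hstep m]
    have a1 := mul_le_mul_of_nonneg_left (abs_le.1 (herr m).1).1 (hthp m)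
    have a2 := mul_le_mul_of_nonneg_left (abs_le.1 (herr m).2).1 (hthp m)
    have a3 := hthm m
    linarith
  have hpow : ∀ m, th ^ m * th ^ m = th ^ (2 * m) := fun m => by rw [← pow_add]; congr 1; ring
  -- base
  have hbase : - (103/100) * th ^ (2*k) ≤ ∫ x, (s (k+1)).f x * (s (k+1)).f (T^[n] x) ∂μ := by
    have b1 := hlow k
    have b2 := (abs_le.1 ((s k).small n hkN)).1
    have b3 : -1 ≤ ∫ x, g k x * g k (T^[n] x) ∂μ := by
      have h1 := norm_integral_le_of_norm_le_const (μ := μ) (C := 1)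
        (f := fun x => g k x * g k (T^[n] x)) (Eventually.of_forall (fun x => by
          rw [Real.norm_eq_abs, abs_mul]
          exact mul_le_one₀ (hgb _ _) (abs_nonneg _) (hgb _ _)))
      rw [Real.norm_eq_abs, probReal_univ, mul_one] at h1
      exact (abs_le.1 h1).1
    have b4 : -(th ^ (2*k)) ≤ th ^ k * th ^ k * ∫ x, g k x * g k (T^[n] x) ∂μ := by
      rw [hpow]
      have : 0 ≤ th ^ (2*k) := hthp _
      nlinarith
    unfold er at b1 b2
    linarith
  have hind : ∀ j, - (103/100) * th ^ (2*k) + (105/1000) / (1 - th^2) *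
      (th ^ (2*(k+1)) - th ^ (2*(k+1+j))) ≤ ∫ x, (s (k+1+j)).f x * (s (k+1+j)).f (T^[n] x) ∂μ := by
    intro j
    induction j with
    | zero => simpa using hbase
    | succ j ih =>
      have c1 := hlow (k+1+j)
      have c2 : 1/8 ≤ ∫ x, g (k+1+j) x * g (k+1+j) (T^[n] x) ∂μ := by
        apply hdiag (k+1+j) (s (k+1+j)) n
        refine hi1.trans ?_
        apply hNmono
        omega
      have c3 : th ^ (2*(k+1+j)) * (1/8) ≤ th ^ (k+1+j) * th ^ (k+1+j) *
          ∫ x, g (k+1+j) x * g (k+1+j) (T^[n] x) ∂μ := by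
        rw [hpow]
        exact mul_le_mul_of_nonneg_left c2 (hthp _)
      have c4 : (105/1000) / (1 - th^2) * (th ^ (2*(k+1)) - th ^ (2*(k+1+(j+1))))
          = (105/1000) / (1 - th^2) * (th ^ (2*(k+1)) - th ^ (2*(k+1+j)))
            + (105/1000) * th ^ (2*(k+1+j)) := by
        have e : th ^ (2*(k+1+(j+1))) = th ^ (2*(k+1+j)) * th^2 := by
          rw [← pow_add]; congr 1
        rw [e]
        have : (1 - th^2) ≠ 0 := by unfold th; norm_num
        field_simp
        ring
      rw [c4]
      have e2 : k + 1 + (j+1) = (k+1+j) + 1 := by ring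
      rw [e2]
      unfold er at c1
      linarith
  have hfinal : - (103/100) * th ^ (2*k) + (105/1000) / (1 - th^2) * th ^ (2*(k+1))
      ≤ ∫ x, F x * F (T^[n] x) ∂μ := by
    have l1 : Tendsto (fun j => - (103/100) * th ^ (2*k) + (105/1000) / (1 - th^2) *
      (th ^ (2*(k+1)) - th ^ (2*(k+1+j)))) atTop (𝓝 (- (103/100) * th ^ (2*k) +
        (105/1000) / (1 - th^2) * (th ^ (2*(k+1)) - 0))) := by
      apply Tendsto.const_add
      apply Tendsto.const_mul
      apply Tendsto.const_sub
      have : Tendsto (fun j : ℕ => th ^ j) atTop (𝓝 0) := tendsto_pow_atTop_nhds_zero_of_lt_one th0.le th1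
      apply this.comp
      apply tendsto_atTop_mono (f := fun j => j) _ tendsto_id
      intro j; omega
    rw [sub_zero] at l1
    have l2 : Tendsto (fun j => ∫ x, (s (k+1+j)).f x * (s (k+1+j)).f (T^[n] x) ∂μ) atTop
        (𝓝 (∫ x, F x * F (T^[n] x) ∂μ)) := by
      have : Tendsto (fun j : ℕ => k + 1 + j) atTop atTop :=
        tendsto_atTop_mono (f := fun j => j) (fun j => by simp) tendsto_id
      exact hcl.comp this
    exact le_of_tendsto_of_tendsto' l1 l2 hind
  refine lt_of_lt_of_le ?_ hfinal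
  have e : th ^ (2*(k+1)) = th ^ (2*k) * th^2 := by
    rw [← pow_add]; congr 1
  rw [e]
  have hp : 0 < th ^ (2*k) := pow_pos th0 _
  have e2 : (105/1000) / (1 - th^2) * (th ^ (2*k) * th^2)
      = th ^ (2*k) * ((105/1000) / (1 - th^2) * th^2) := by ring
  rw [e2]
  have h3 : (2:ℝ) < (105/1000) / (1 - th^2) * th^2 := by unfold th; norm_num
  nlinarith

end Pool.Agent.V8H53.OverRec
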